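import Mathlib
import Pool.Agent.H6.Lkk

/-! Supersaturation of comparable pairs in `L(k,k)`. -/

namespace Pool.Agent.Results.MP_75c11f_co.Supersat

open Finset

/-- `L(k,k)`: sequences `0 ≤ x_1 ≤ ⋯ ≤ x_k ≤ k`. -/
abbrev L (k : ℕ) : Type := {x : Fin k → ℕ // Monotone x ∧ ∀ i, x i ≤ k}

/-- The componentwise order. -/
def Le {k : ℕ} (x y : L k) : Prop := ∀ i, x.1 i ≤ y.1 i

/-- The comparability graph `G_k` of `L(k,k)`. -/
def G (k : ℕ) : SimpleGraph (L k) where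
  Adj x y := x ≠ y ∧ (Le x y ∨ Le y x)
  symm := ⟨fun _ _ h => ⟨h.1.symm, h.2.symm⟩⟩
  loopless := ⟨fun _ h => h.1 rfl⟩

/-- `e(G_k[U])`: the number of edges of `G_k` with both ends in `U`. -/
noncomputable def e {k : ℕ} (U : Finset (L k)) : ℕ :=
  {s : Sym2 (L k) | s ∈ (G k).edgeSet ∧ ∀ v ∈ s, v ∈ U}.ncard

/-- The subset attached to a sequence. -/
def phi {k : ℕ} (x : L k) : Finset ℕ := univ.image (fun i : Fin k => x.1 i + i + 1)

theorem smono {k : ℕ} (x : L k) : StrictMono (fun i : Fin k => x.1 i + i + 1) := by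
  intro i j h
  have h1 := x.2.1 h.le
  have h2 : (i : ℕ) < j := h
  change x.1 i + i + 1 < x.1 j + j + 1
  omega

theorem le_of_dom {k : ℕ} {x y : L k}
    (h : ∀ t, ((phi y).filter (· < t)).card ≤ ((phi x).filter (· < t)).card) : Le x y := by
  intro i
  by_contra hc
  push Not at hc
  have h1 := h (y.1 i + i + 2)
  have h2 : (Iic i).image (fun j : Fin k => y.1 j + j + 1) ⊆
      (phi y).filter (· < y.1 i + i + 2) := by
    intro a ha
    obtain ⟨j, hj, rfl⟩ := mem_image.1 ha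
    have := (smono y).monotone (mem_Iic.1 hj)
    exact mem_filter.2 ⟨mem_image_of_mem _ (mem_univ _), by omega⟩
  have h3 : (phi x).filter (· < y.1 i + i + 2) ⊆
      (Iio i).image (fun j : Fin k => x.1 j + j + 1) := by
    intro a ha
    obtain ⟨ha1, ha2⟩ := mem_filter.1 ha
    obtain ⟨j, _, rfl⟩ := mem_image.1 ha1
    refine mem_image_of_mem _ (mem_Iio.2 ?_)
    by_contra hj
    have := (smono x).monotone (not_lt.1 hj)
    omega
  have h4 := card_le_card h2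
  have h5 := (card_le_card h3).trans card_image_le
  rw [card_image_of_injective _ (smono y).injective, Fin.card_Iic] at h4
  rw [Fin.card_Iio] at h5
  omega

theorem le_antisymm' {k : ℕ} {x y : L k} (h1 : Le x y) (h2 : Le y x) : x = y :=
  Subtype.ext (funext fun i => le_antisymm (h1 i) (h2 i))

theorem phi_inj {k : ℕ} : Function.Injective (phi (k := k)) := by
  intro x y h
  exact le_antisymm' (le_of_dom fun t => by rw [h]) (le_of_dom fun t => by rw [h])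

theorem phi_mem {m k : ℕ} (hk : m + 1 = 2 * k) (x : L k) : phi x ∈ Pool.Agent.H6.Lkk.Om m k := by
  refine mem_powersetCard.2 ⟨fun a ha => ?_, ?_⟩
  · obtain ⟨j, _, rfl⟩ := mem_image.1 ha
    have h1 := x.2.2 j
    have h2 := j.2
    exact mem_Icc.2 ⟨by omega, by omega⟩
  · rw [phi, card_image_of_injective _ (smono x).injective, card_univ, Fintype.card_fin]

open Classical in
theorem pairs_le {k : ℕ} (U : Finset (L k)) :
    ((U.image phi ×ˢ U.image phi).filter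
      (fun p => Pool.Agent.H6.Lkk.Dom p.1 p.2)).card ≤ e U := by
  set P := (U ×ˢ U).filter (fun p => Le p.1 p.2 ∧ p.1 ≠ p.2) with hP
  have h1 : (U.image phi ×ˢ U.image phi).filter (fun p => Pool.Agent.H6.Lkk.Dom p.1 p.2) ⊆
      P.image (fun p => (phi p.1, phi p.2)) := by
    rintro ⟨S, T⟩ hp
    obtain ⟨hp1, hp2⟩ := mem_filter.1 hp
    obtain ⟨hS, hT⟩ := mem_product.1 hp1
    obtain ⟨x, hx, rfl⟩ := mem_image.1 hS
    obtain ⟨y, hy, rfl⟩ := mem_image.1 hT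
    refine mem_image.2 ⟨(x, y), mem_filter.2 ⟨mem_product.2 ⟨hx, hy⟩, le_of_dom hp2.1, ?_⟩, rfl⟩
    rintro (rfl : x = y)
    exact lt_irrefl _ hp2.2
  have h2 : (P.image (fun p => s(p.1, p.2))).card = P.card := by
    refine card_image_of_injOn ?_
    rintro ⟨x, y⟩ hp ⟨x', y'⟩ hp' h
    have a1 := (mem_filter.1 hp).2
    have a2 := (mem_filter.1 hp').2
    rcases Sym2.eq_iff.1 h with ⟨rfl, rfl⟩ | ⟨rfl, rfl⟩
    · rfl
    · exact absurd (le_antisymm' a1.1 a2.1) a1.2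
  have h3 : {s : Sym2 (L k) | s ∈ (G k).edgeSet ∧ ∀ v ∈ s, v ∈ U} =
      ↑(P.image (fun p => s(p.1, p.2))) := by
    ext s
    induction s using Sym2.ind with
    | h x y =>
      simp only [Set.mem_ofPred_eq, SimpleGraph.mem_edgeSet, Sym2.mem_iff, coe_image,
        Set.mem_image, mem_coe]
      constructor
      · rintro ⟨⟨h1, h2 | h2⟩, h3⟩
        · exact ⟨(x, y), mem_filter.2 ⟨mem_product.2 ⟨h3 x (Or.inl rfl), h3 y (Or.inr rfl)⟩,
            h2, h1⟩, rfl⟩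
        · exact ⟨(y, x), mem_filter.2 ⟨mem_product.2 ⟨h3 y (Or.inr rfl), h3 x (Or.inl rfl)⟩,
            h2, h1.symm⟩, Sym2.eq_swap⟩
      · rintro ⟨⟨a, b⟩, hp, h⟩
        obtain ⟨hp1, hp2⟩ := mem_filter.1 hp
        obtain ⟨ha, hb⟩ := mem_product.1 hp1
        rcases Sym2.eq_iff.1 h with ⟨rfl, rfl⟩ | ⟨rfl, rfl⟩
        · refine ⟨⟨hp2.2, Or.inl hp2.1⟩, ?_⟩
          rintro v (rfl | rfl)
          exacts [ha, hb]
        · refine ⟨⟨hp2.2.symm, Or.inr hp2.1⟩, ?_⟩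
          rintro v (rfl | rfl)
          exacts [hb, ha]
  rw [e, h3, Set.ncard_coe_finset, h2]
  exact (card_le_card h1).trans card_image_le

theorem result : ∃ c₁ c₂ : ℝ, 0 < c₁ ∧ 0 < c₂ ∧ ∃ k₀ : ℕ, ∀ k : ℕ, k₀ ≤ k →
    ∀ U : Finset (L k),
      c₁ * (k : ℝ) ^ (-(3 / 2) : ℝ) * ((2 * k).choose k : ℝ) ≤ (U.card : ℝ) →
      c₂ * (k : ℝ) ^ 2 * (U.card : ℝ) ≤ (e U : ℝ) := by
  classical
  refine ⟨4 * 10 ^ 13, 1 / 2048, by norm_num, by norm_num, 256, fun k hk U hU => ?_⟩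
  have hkR : (256 : ℝ) ≤ k := by exact_mod_cast hk
  have hk0 : (0 : ℝ) < k := by linarith
  have hm : (2 * k - 1) + 1 = 2 * k := by omega
  have h1 := Pool.Agent.H6.Lkk.supersat hm hk (U.image phi) (by
    intro S hS
    obtain ⟨x, _, rfl⟩ := mem_image.1 hS
    exact phi_mem hm x)
  rw [card_image_of_injective _ phi_inj] at h1
  have h2 : (k : ℝ) ^ (-(3 / 2) : ℝ) = √(k : ℝ) / (k : ℝ) ^ 2 := by
    rw [Real.sqrt_eq_rpow, ← Real.rpow_natCast, ← Real.rpow_sub hk0]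
    norm_num
  rw [h2] at hU
  have h3 : (((U.image phi ×ˢ U.image phi).filter
      (fun p => Pool.Agent.H6.Lkk.Dom p.1 p.2)).card : ℝ) ≤ (e U : ℝ) := by
    exact_mod_cast pairs_le U
  have h4 : (U.card : ℝ) / 2 ≤ 1024 / (k : ℝ) ^ 2 * (e U : ℝ) := by
    have : 1024 / (k : ℝ) ^ 2 * (((U.image phi ×ˢ U.image phi).filter
      (fun p => Pool.Agent.H6.Lkk.Dom p.1 p.2)).card : ℝ) ≤ 1024 / (k : ℝ) ^ 2 * (e U : ℝ) := by
      gcongr
    linarith
  rw [div_mul_eq_mul_div, le_div_iff₀ (by positivity)] at h4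
  linarith

end Pool.Agent.Results.MP_75c11f_co.Supersat
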